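import Mathlib

/-!
# Monomial germs: the order of vanishing at the origin
-/

set_option autoImplicit false

open Matrix Finset

namespace Q72.Germ

/-- the monomial map with exponent matrix `B` -/
def mono {n : ℕ} (B : Matrix (Fin n) (Fin n) ℕ) (z : Fin n → ℂ) : Fin n → ℂ :=
  fun i => ∏ j, z j ^ B i j

/-- the degrees -/
def rs {n : ℕ} (B : Matrix (Fin n) (Fin n) ℕ) (i : Fin n) : ℕ := ∑ j, B i j

lemma mono_one {n : ℕ} (z : Fin n → ℂ) : mono 1 z = z := by
  funext i
  unfold mono
  rw [Finset.prod_eq_single i]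
  · simp
  · intro j _ hj
    rw [Matrix.one_apply_ne hj.symm, pow_zero]
  · simp

lemma mono_mono {n : ℕ} (A B : Matrix (Fin n) (Fin n) ℕ) (z : Fin n → ℂ) :
    mono A (mono B z) = mono (A * B) z := by
  funext i
  unfold mono
  simp only [← Finset.prod_pow, ← pow_mul]
  rw [Finset.prod_comm]
  apply Finset.prod_congr rfl
  intro l _
  rw [Finset.prod_pow_eq_pow_sum, Matrix.mul_apply]
  congr 1
  exact Finset.sum_congr rfl fun j _ => mul_comm _ _

lemma iterate_mono {n : ℕ} (A : Matrix (Fin n) (Fin n) ℕ) (k : ℕ) :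
    (mono A)^[k] = mono (A ^ k) := by
  induction k with
  | zero => funext z; rw [pow_zero, mono_one]; rfl
  | succ k ih =>
    funext z
    rw [Function.iterate_succ', Function.comp_apply, ih, mono_mono, pow_succ']

lemma contDiff_mono {n : ℕ} (B : Matrix (Fin n) (Fin n) ℕ) (m : WithTop ℕ∞) :
    ContDiff ℂ m (mono B) := by
  rw [contDiff_pi]
  intro i
  unfold mono
  apply contDiff_prod
  intro j _
  exact (contDiff_apply ℂ ℂ j).pow _

lemma analyticAt_mono {n : ℕ} (B : Matrix (Fin n) (Fin n) ℕ) (z : Fin n → ℂ) :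
    AnalyticAt ℂ (mono B) z := (contDiff_mono B ⊤).contDiffAt.analyticAt

/-- the diagonal -/
noncomputable def diagL (n : ℕ) : ℂ →L[ℂ] (Fin n → ℂ) :=
  ContinuousLinearMap.pi fun _ => ContinuousLinearMap.id ℂ ℂ

lemma diagL_apply (n : ℕ) (t : ℂ) (i : Fin n) : diagL n t i = t := rfl

lemma iteratedFDeriv_comp (n : ℕ) (B : Matrix (Fin n) (Fin n) ℕ) (m : ℕ) (i : Fin n) :
    iteratedFDeriv ℂ m (fun z => mono B z i) 0 =
      (ContinuousLinearMap.proj (R := ℂ) (φ := fun _ : Fin n => ℂ) i).compContinuousMultilinearMap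
        (iteratedFDeriv ℂ m (mono B) 0) := by
  have := ContinuousLinearMap.iteratedFDeriv_comp_left
    (ContinuousLinearMap.proj (R := ℂ) (φ := fun _ : Fin n => ℂ) i)
    ((contDiff_mono B (m : WithTop ℕ∞)).contDiffAt (x := 0)) (i := m) le_rfl
  exact this

/-- no derivative below (or above) the degree -/
lemma iteratedFDeriv_eq_zero {n : ℕ} (B : Matrix (Fin n) (Fin n) ℕ) {m : ℕ} {i : Fin n}
    (h : m ≠ rs B i) : iteratedFDeriv ℂ m (fun z => mono B z i) 0 = 0 := by
  have hc : ContDiff ℂ (m : WithTop ℕ∞) (fun z => mono B z i) :=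
    contDiff_pi.1 (contDiff_mono B _) i
  have h2 := ContinuousLinearMap.iteratedFDeriv_comp_right
    ((2 : ℂ) • ContinuousLinearMap.id ℂ (Fin n → ℂ)) hc 0 (i := m) le_rfl
  have h3 : (fun z => mono B z i) ∘ ((2 : ℂ) • ContinuousLinearMap.id ℂ (Fin n → ℂ)) =
      (2 : ℂ) ^ rs B i • (fun z => mono B z i) := by
    funext z
    simp only [Function.comp_apply, mono, Pi.smul_apply, smul_eq_mul,
      ContinuousLinearMap.smul_apply, ContinuousLinearMap.id_apply, mul_pow,
      Finset.prod_mul_distrib, Finset.prod_pow_eq_pow_sum, rs]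
  rw [h3, iteratedFDeriv_const_smul_apply hc.contDiffAt] at h2
  ext v
  have h4 := congrArg (fun L : ContinuousMultilinearMap ℂ (fun _ : Fin m => Fin n → ℂ) ℂ => L v) h2
  simp only [ContinuousMultilinearMap.smul_apply, smul_eq_mul,
    ContinuousMultilinearMap.compContinuousLinearMap_apply, map_zero,
    ContinuousLinearMap.smul_apply, ContinuousLinearMap.id_apply] at h4
  rw [ContinuousMultilinearMap.map_smul_univ] at h4
  simp only [Finset.prod_const, Finset.card_univ, Fintype.card_fin, smul_eq_mul] at h4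
  have h5 : ((2 : ℂ) ^ rs B i - 2 ^ m) ≠ 0 := by
    intro h6
    have h7 : (2 : ℂ) ^ rs B i = 2 ^ m := sub_eq_zero.1 h6
    have h8 : (2 : ℕ) ^ rs B i = 2 ^ m := by exact_mod_cast h7
    exact h (Nat.pow_right_injective le_rfl h8).symm
  have h9 : ((2 : ℂ) ^ rs B i - 2 ^ m) *
      iteratedFDeriv ℂ m (fun z => mono B z i) 0 v = 0 := by
    rw [sub_mul, h4, sub_self]
  simpa using (mul_eq_zero.1 h9).resolve_left h5

/-- the derivative at the degree is nonzero -/
lemma iteratedFDeriv_ne_zero {n : ℕ} (B : Matrix (Fin n) (Fin n) ℕ) (i : Fin n) :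
    iteratedFDeriv ℂ (rs B i) (fun z => mono B z i) 0 ≠ 0 := by
  intro h
  have hc : ContDiff ℂ (rs B i : WithTop ℕ∞) (fun z => mono B z i) :=
    contDiff_pi.1 (contDiff_mono B _) i
  have h2 := ContinuousLinearMap.iteratedFDeriv_comp_right (diagL n) hc 0 (i := rs B i) le_rfl
  have h3 : (fun z => mono B z i) ∘ (diagL n) = fun t : ℂ => t ^ rs B i := by
    funext t
    simp only [Function.comp_apply, mono, diagL_apply, Finset.prod_pow_eq_pow_sum, rs]
  rw [h3, map_zero, h] at h2
  have h4 : iteratedDeriv (rs B i) (fun t : ℂ => t ^ rs B i) 0 = 0 := by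
    rw [iteratedDeriv_eq_iteratedFDeriv, h2]
    simp
  rw [iteratedDeriv_eq_iterate, iter_deriv_pow] at h4
  rw [Nat.sub_self, pow_zero, mul_one, Finset.prod_eq_zero_iff] at h4
  obtain ⟨j, hj, hj2⟩ := h4
  have h5 := Finset.mem_range.1 hj
  rw [sub_eq_zero] at hj2
  have h6 : rs B i = j := by exact_mod_cast hj2
  omega

/-- the order of vanishing of a monomial map -/
theorem order_mono {n : ℕ} (B : Matrix (Fin n) (Fin n) ℕ) {c : ℕ} (h1 : ∀ i, c ≤ rs B i)
    (h2 : ∃ i, rs B i = c) : sInf {m : ℕ | iteratedFDeriv ℂ m (mono B) 0 ≠ 0} = c := by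
  obtain ⟨i, hi⟩ := h2
  have hmem : iteratedFDeriv ℂ c (mono B) 0 ≠ 0 := by
    intro h
    apply iteratedFDeriv_ne_zero B i
    rw [iteratedFDeriv_comp, hi, h]
    ext v
    simp
  apply le_antisymm
  · exact Nat.sInf_le hmem
  · apply le_csInf ⟨c, hmem⟩
    intro m hm
    by_contra hcon
    push Not at hcon
    apply hm
    ext v j
    have h3 := iteratedFDeriv_eq_zero B (m := m) (i := j) (by have := h1 j; omega)
    rw [iteratedFDeriv_comp] at h3
    have h4 := congrArg (fun L : ContinuousMultilinearMap ℂ (fun _ : Fin m => Fin n → ℂ) ℂ => L v) h3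
    simpa using h4

end Q72.Germ
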