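import Mathlib

/-!
# A sequence which satisfies no linear recursion
-/

set_option autoImplicit false

open Finset

namespace Q72.Germ

/-- the pair `(a_k, b_k)` -/
def ab : ℕ → ℤ × ℤ
  | 0 => (0, 0)
  | k + 1 => (2 * (ab k).1 - (ab k).2 + 1, (ab k).1 + 2 * (ab k).2 + 2)

/-- the mean -/
def pp : ℕ → ℤ
  | 0 => 1
  | k + 1 => 3 * pp k + 8 * 12 ^ k - 2

/-- the oscillating part -/
def MM (k : ℕ) : ℤ := max |(ab k).1| |(ab k).2|

/-- the order -/
def CC (k : ℕ) : ℤ := pp k - MM k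

lemma ab_mod (k : ℕ) : (((ab (k + 1)).1 : ℤ) : ZMod 5) = 1 ∧ (((ab (k + 1)).2 : ℤ) : ZMod 5) = 2 := by
  induction k with
  | zero => simp [ab]
  | succ k ih =>
    obtain ⟨h1, h2⟩ := ih
    constructor
    · rw [ab]
      push_cast
      rw [h1, h2]
      decide
    · rw [ab]
      push_cast
      rw [h1, h2]
      decide

lemma MM_cases (k : ℕ) : MM k = (ab k).1 ∨ MM k = -(ab k).1 ∨ MM k = (ab k).2 ∨
    MM k = -(ab k).2 := by
  unfold MM
  rcases max_choice |(ab k).1| |(ab k).2| with h | h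
  · rw [h]
    rcases abs_choice (ab k).1 with h1 | h1
    · exact Or.inl h1
    · exact Or.inr (Or.inl h1)
  · rw [h]
    rcases abs_choice (ab k).2 with h1 | h1
    · exact Or.inr (Or.inr (Or.inl h1))
    · exact Or.inr (Or.inr (Or.inr h1))

/-- eventual periodicity modulo `5` -/
lemma periodic {d K : ℕ} (α : Fin d → ℤ)
    (h : ∀ k : ℕ, K ≤ k → CC (k + d) = ∑ i : Fin d, α i * CC (k + (i : ℕ))) :
    ∃ s T : ℕ, 1 ≤ s ∧ 1 ≤ T ∧ ∀ m : ℕ, ((MM (s + m) : ℤ) : ZMod 5) = ((MM (s + T + m) : ℤ) : ZMod 5) := by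
  obtain ⟨k1, k2, hne, heq⟩ := Finite.exists_ne_map_eq_of_infinite
    (fun k : ℕ => ((fun i : Fin d => ((CC (K + k + i) : ℤ) : ZMod 5)),
      ((pp (K + k) : ℤ) : ZMod 5), (12 : ZMod 5) ^ (K + k)))
  wlog hlt : k1 < k2 generalizing k1 k2
  · exact this k2 k1 hne.symm heq.symm (by omega)
  simp only [Prod.mk.injEq] at heq
  obtain ⟨e1, e2, e3⟩ := heq
  have hC : ∀ m : ℕ, ((CC (K + k1 + m) : ℤ) : ZMod 5) = ((CC (K + k2 + m) : ℤ) : ZMod 5) := by
    intro m
    induction m using Nat.strong_induction_on with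
    | _ m ih =>
      rcases Nat.lt_or_ge m d with hm | hm
      · exact congrFun e1 ⟨m, hm⟩
      · have h1 := h (K + k1 + (m - d)) (by omega)
        have h2 := h (K + k2 + (m - d)) (by omega)
        rw [show K + k1 + (m - d) + d = K + k1 + m by omega] at h1
        rw [show K + k2 + (m - d) + d = K + k2 + m by omega] at h2
        rw [h1, h2]
        push_cast
        apply Finset.sum_congr rfl
        intro i _
        have h3 := ih (m - d + i) (by have := i.2; omega)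
        rw [show K + k1 + (m - d) + (i : ℕ) = K + k1 + (m - d + i) by omega,
          show K + k2 + (m - d) + (i : ℕ) = K + k2 + (m - d + i) by omega, h3]
  have h12 : ∀ m : ℕ, (12 : ZMod 5) ^ (K + k1 + m) = 12 ^ (K + k2 + m) := by
    intro m
    rw [pow_add, e3, ← pow_add]
  have hp : ∀ m : ℕ, ((pp (K + k1 + m) : ℤ) : ZMod 5) = ((pp (K + k2 + m) : ℤ) : ZMod 5) := by
    intro m
    induction m with
    | zero => exact e2
    | succ m ih =>
      have h1 := h12 m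
      rw [show K + k1 + (m + 1) = K + k1 + m + 1 by omega,
        show K + k2 + (m + 1) = K + k2 + m + 1 by omega, pp, pp]
      push_cast
      rw [ih, h1]
  refine ⟨K + k1 + 1, k2 - k1, by omega, by omega, fun m => ?_⟩
  have h1 := hC (1 + m)
  have h2 := hp (1 + m)
  have e4 : ∀ k, MM k = pp k - CC k := fun k => by unfold CC; ring
  rw [e4, e4]
  push_cast
  rw [show K + k1 + 1 + m = K + k1 + (1 + m) by omega,
    show K + k1 + 1 + (k2 - k1) + m = K + k2 + (1 + m) by omega, h1, h2]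

lemma periodic' {d K : ℕ} (α : Fin d → ℤ)
    (h : ∀ k : ℕ, K ≤ k → CC (k + d) = ∑ i : Fin d, α i * CC (k + (i : ℕ))) :
    ∃ s T : ℕ, 1 ≤ s ∧ 1 ≤ T ∧ ∀ j : ℕ, ((MM (s + 2 * T * j) : ℤ) : ZMod 5) = ((MM s : ℤ) : ZMod 5) := by
  obtain ⟨s, T, hs, hT, hp⟩ := periodic α h
  refine ⟨s, T, hs, hT, fun j => ?_⟩
  induction j with
  | zero => simp
  | succ j ih =>
    rw [← ih, hp (2 * T * j), show s + T + 2 * T * j = s + (T + 2 * T * j) by ring,
      hp (T + 2 * T * j), show s + 2 * T * (j + 1) = s + T + (T + 2 * T * j) by ring]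

/-- the complex form -/
noncomputable def SS (k : ℕ) : ℂ := ((ab k).1 : ℂ) + ((ab k).2 : ℂ) * Complex.I

noncomputable def lam : ℂ := 2 + Complex.I

noncomputable def kap : ℂ := (3 + Complex.I) / 2

lemma SS_eq (k : ℕ) : SS k = kap * (lam ^ k - 1) := by
  induction k with
  | zero => simp [SS, ab]
  | succ k ih =>
    have h1 : SS (k + 1) = lam * SS k + (1 + 2 * Complex.I) := by
      unfold SS lam
      rw [ab]
      push_cast
      linear_combination (-((ab k).2 : ℂ)) * Complex.I_sq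
    rw [h1, ih, pow_succ]
    unfold kap lam
    linear_combination (-(1 : ℂ) / 2) * Complex.I_sq

lemma direction (k : ℕ) (hk : 1 ≤ k) : ∀ r : ZMod 5, ((MM k : ℤ) : ZMod 5) = r →
    (r = 1 → (MM k : ℝ) = (1 * SS k).re) ∧ (r = 4 → (MM k : ℝ) = ((-1) * SS k).re) ∧
    (r = 2 → (MM k : ℝ) = ((-Complex.I) * SS k).re) ∧
    (r = 3 → (MM k : ℝ) = (Complex.I * SS k).re) ∧ (r = 1 ∨ r = 4 ∨ r = 2 ∨ r = 3) := by
  obtain ⟨k, rfl⟩ : ∃ l, k = l + 1 := ⟨k - 1, by omega⟩
  rintro r rfl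
  obtain ⟨h1, h2⟩ := ab_mod k
  have e1 : (1 * SS (k + 1)).re = (ab (k + 1)).1 := by simp [SS]
  have e2 : ((-1) * SS (k + 1)).re = -(ab (k + 1)).1 := by simp [SS]
  have e3 : ((-Complex.I) * SS (k + 1)).re = (ab (k + 1)).2 := by simp [SS]
  have e4 : (Complex.I * SS (k + 1)).re = -(ab (k + 1)).2 := by simp [SS]
  rw [e1, e2, e3, e4]
  rcases MM_cases (k + 1) with h | h | h | h
  · rw [h, h1]
    refine ⟨fun _ => rfl, fun h => absurd h (by decide), fun h => absurd h (by decide),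
      fun h => absurd h (by decide), Or.inl rfl⟩
  · rw [h]
    push_cast
    rw [h1]
    refine ⟨fun h => absurd h (by decide), fun _ => rfl, fun h => absurd h (by decide),
      fun h => absurd h (by decide), Or.inr (Or.inl (by decide))⟩
  · rw [h, h2]
    refine ⟨fun h => absurd h (by decide), fun h => absurd h (by decide), fun _ => rfl,
      fun h => absurd h (by decide), Or.inr (Or.inr (Or.inl rfl))⟩
  · rw [h]
    push_cast
    rw [h2]
    refine ⟨fun h => absurd h (by decide), fun h => absurd h (by decide),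
      fun h => absurd h (by decide), fun _ => rfl, Or.inr (Or.inr (Or.inr (by decide)))⟩

lemma norm_SS_le (k : ℕ) : ‖SS k‖ ≤ 2 * (MM k : ℝ) := by
  have h1 : |((ab k).1 : ℝ)| ≤ (MM k : ℝ) := by
    unfold MM
    exact_mod_cast le_max_left |(ab k).1| |(ab k).2|
  have h2 : |((ab k).2 : ℝ)| ≤ (MM k : ℝ) := by
    unfold MM
    exact_mod_cast le_max_right |(ab k).1| |(ab k).2|
  have h3 : ‖SS k‖ ≤ |((ab k).1 : ℝ)| + |((ab k).2 : ℝ)| := by
    unfold SS
    refine (norm_add_le _ _).trans ?_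
    rw [norm_mul, Complex.norm_I, mul_one]
    simp
  linarith

/-- powers of `3 + 4i` -/
def XY : ℕ → ℤ × ℤ
  | 0 => (1, 0)
  | n + 1 => (3 * (XY n).1 - 4 * (XY n).2, 4 * (XY n).1 + 3 * (XY n).2)

lemma XY_mod (n : ℕ) : (((XY (n + 1)).1 : ℤ) : ZMod 5) = 3 ∧ (((XY (n + 1)).2 : ℤ) : ZMod 5) = 4 := by
  induction n with
  | zero => simp [XY]
  | succ n ih =>
    obtain ⟨h1, h2⟩ := ih
    constructor
    · rw [XY]
      push_cast
      rw [h1, h2]
      decide
    · rw [XY]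
      push_cast
      rw [h1, h2]
      decide

lemma lam_pow (n : ℕ) : lam ^ (2 * n) = ((XY n).1 : ℂ) + ((XY n).2 : ℂ) * Complex.I := by
  induction n with
  | zero => simp [XY]
  | succ n ih =>
    rw [show 2 * (n + 1) = 2 * n + 2 by ring, pow_add, ih, XY]
    unfold lam
    push_cast
    linear_combination (4 * (((XY n).2 : ℂ)) + ((XY n).1 : ℂ) + ((XY n).2 : ℂ) * Complex.I) *
      Complex.I_sq

lemma lam_pow_ne {T : ℕ} (hT : 1 ≤ T) : lam ^ (2 * T) ≠ 5 ^ T := by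
  intro h
  rw [lam_pow] at h
  have h1 := congrArg Complex.im h
  have h2 : ((5 : ℂ) ^ T).im = 0 := by
    have : (5 : ℂ) ^ T = ((5 ^ T : ℝ) : ℂ) := by push_cast; rfl
    rw [this, Complex.ofReal_im]
  rw [h2] at h1
  simp at h1
  obtain ⟨n, rfl⟩ : ∃ l, T = l + 1 := ⟨T - 1, by omega⟩
  have h3 := (XY_mod n).2
  rw [h1] at h3
  exact absurd h3 (by decide)

lemma norm_lam_sq : ‖lam‖ ^ 2 = 5 := by
  rw [← Complex.normSq_eq_norm_sq]
  unfold lam
  simp [Complex.normSq_apply]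
  norm_num

theorem no_recursion {d K : ℕ} (α : Fin d → ℤ)
    (h : ∀ k : ℕ, K ≤ k → CC (k + d) = ∑ i : Fin d, α i * CC (k + (i : ℕ))) : False := by
  obtain ⟨s, T, hs, hT, hp⟩ := periodic' α h
  -- a common direction
  have hu : ∃ u : ℂ, ‖u‖ = 1 ∧ ∀ j : ℕ, (MM (s + 2 * T * j) : ℝ) = (u * SS (s + 2 * T * j)).re := by
    have h0 := (direction s hs _ rfl).2.2.2.2
    rcases h0 with h0 | h0 | h0 | h0
    · exact ⟨1, by simp, fun j => (direction _ (by omega) _ (hp j)).1 h0⟩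
    · exact ⟨-1, by simp, fun j => (direction _ (by omega) _ (hp j)).2.1 h0⟩
    · exact ⟨-Complex.I, by simp, fun j => (direction _ (by omega) _ (hp j)).2.2.1 h0⟩
    · exact ⟨Complex.I, by simp, fun j => (direction _ (by omega) _ (hp j)).2.2.2.1 h0⟩
  obtain ⟨u, hu1, hu2⟩ := hu
  have hl2 : 2 ≤ ‖lam‖ := by nlinarith [norm_lam_sq, norm_nonneg lam]
  have h5 : (0 : ℝ) < 5 ^ T := by positivity
  have h5' : (5 : ℂ) ^ T ≠ 0 := pow_ne_zero _ (by norm_num)
  set w : ℂ := lam ^ (2 * T) / 5 ^ T with hw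
  have hwn : ‖w‖ = 1 := by
    rw [hw, norm_div, norm_pow, pow_mul, norm_lam_sq, norm_pow]
    simp
  have hw1 : w ≠ 1 := by
    rw [hw]
    intro h1
    rw [div_eq_one_iff_eq h5'] at h1
    exact lam_pow_ne hT h1
  set x : ℝ := (5 ^ T)⁻¹ with hx
  have hx0 : 0 < x := by positivity
  have hx1 : x ≤ 1 / 5 := by
    rw [hx, one_div]
    apply inv_anti₀ (by norm_num)
    calc (5 : ℝ) = 5 ^ 1 := by norm_num
      _ ≤ 5 ^ T := pow_le_pow_right₀ (by norm_num) hT
  set z : ℕ → ℂ := fun j => kap * (lam ^ s * w ^ j - (x : ℂ) ^ j) with hz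
  have hzS : ∀ j, SS (s + 2 * T * j) = (((x ^ j)⁻¹ : ℝ) : ℂ) * z j := by
    intro j
    have hxc : (x : ℂ) ^ j ≠ 0 := by
      have : (x : ℂ) ≠ 0 := by exact_mod_cast hx0.ne'
      exact pow_ne_zero _ this
    rw [SS_eq]
    simp only [hz]
    push_cast
    have e1 : (lam : ℂ) ^ (s + 2 * T * j) = lam ^ s * (w ^ j * ((x : ℂ) ^ j)⁻¹) := by
      rw [pow_add, pow_mul, hw, hx]
      push_cast
      rw [div_pow, inv_pow, inv_inv]
      field_simp
    rw [e1]
    field_simp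
  have hk1 : 1 ≤ ‖kap‖ := by
    have h1 : ‖kap‖ ^ 2 = 5 / 2 := by
      rw [← Complex.normSq_eq_norm_sq]
      unfold kap
      rw [map_div₀]
      simp [Complex.normSq_apply]
      norm_num
    nlinarith [norm_nonneg kap]
  have hzlow : ∀ j, 1 ≤ ‖z j‖ := by
    intro j
    simp only [hz]
    rw [norm_mul]
    have h1 : ‖lam ^ s * w ^ j‖ - ‖(x : ℂ) ^ j‖ ≤ ‖lam ^ s * w ^ j - (x : ℂ) ^ j‖ := norm_sub_norm_le _ _
    rw [norm_mul, norm_pow, norm_pow, hwn, one_pow, mul_one, norm_pow, Complex.norm_real,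
      Real.norm_of_nonneg hx0.le] at h1
    have h2 : x ^ j ≤ 1 := pow_le_one₀ hx0.le (by linarith)
    have h3 : ‖lam‖ ≤ ‖lam‖ ^ s := le_self_pow₀ (by linarith) (by omega)
    nlinarith
  have hre : ∀ j, 1 / 2 ≤ (u * z j).re := by
    intro j
    have h1 := hu2 j
    have h2 := norm_SS_le (s + 2 * T * j)
    rw [h1, hzS, norm_mul, Complex.norm_real, Real.norm_of_nonneg (by positivity)] at h2
    have h3 : (u * (((x ^ j)⁻¹ : ℝ) * z j)).re = (x ^ j)⁻¹ * (u * z j).re := by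
      rw [mul_left_comm, Complex.re_ofReal_mul]
    rw [h3] at h2
    have h4 : 0 < (x ^ j)⁻¹ := by positivity
    have h5 : ‖z j‖ ≤ 2 * (u * z j).re := by
      by_contra hcon
      push Not at hcon
      nlinarith
    linarith [hzlow j]
  -- summation
  have hsum : ∀ J : ℕ, (J : ℝ) * (1 / 2) ≤ ‖kap‖ * (‖lam‖ ^ s * (2 / ‖w - 1‖) + 2) := by
    intro J
    have h1 : (J : ℝ) * (1 / 2) ≤ ∑ j ∈ Finset.range J, (u * z j).re := by
      calc (J : ℝ) * (1 / 2) = ∑ _j ∈ Finset.range J, (1 / 2 : ℝ) := by simp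
        _ ≤ _ := Finset.sum_le_sum fun j _ => hre j
    have h2 : ∑ j ∈ Finset.range J, (u * z j).re = (u * ∑ j ∈ Finset.range J, z j).re := by
      rw [Finset.mul_sum, Complex.re_sum]
    have h3 : (u * ∑ j ∈ Finset.range J, z j).re ≤ ‖∑ j ∈ Finset.range J, z j‖ := by
      refine (Complex.re_le_norm _).trans ?_
      rw [norm_mul, hu1, one_mul]
    have h4 : ∑ j ∈ Finset.range J, z j = kap * (lam ^ s * ∑ j ∈ Finset.range J, w ^ j -
        ∑ j ∈ Finset.range J, (x : ℂ) ^ j) := by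
      simp only [hz]
      rw [← Finset.mul_sum, Finset.sum_sub_distrib, Finset.mul_sum]
    have h5 : ‖∑ j ∈ Finset.range J, w ^ j‖ ≤ 2 / ‖w - 1‖ := by
      rw [geom_sum_eq hw1, norm_div]
      apply div_le_div_of_nonneg_right _ (norm_nonneg _)
      refine (norm_sub_le _ _).trans ?_
      rw [norm_pow, hwn, one_pow, norm_one]
      norm_num
    have h6 : ‖∑ j ∈ Finset.range J, (x : ℂ) ^ j‖ ≤ 2 := by
      have e1 : ∑ j ∈ Finset.range J, (x : ℂ) ^ j = ((∑ j ∈ Finset.range J, x ^ j : ℝ) : ℂ) := by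
        push_cast; rfl
      rw [e1, Complex.norm_real, Real.norm_of_nonneg (Finset.sum_nonneg fun j _ => by positivity)]
      rw [geom_sum_eq (by linarith)]
      rw [show (x ^ J - 1) / (x - 1) = (1 - x ^ J) / (1 - x) by
        rw [← neg_div_neg_eq]; ring]
      rw [div_le_iff₀ (by linarith)]
      have : 0 < x ^ J := by positivity
      linarith
    rw [h2] at h1
    refine h1.trans (h3.trans ?_)
    rw [h4, norm_mul]
    apply mul_le_mul_of_nonneg_left _ (norm_nonneg _)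
    refine (norm_sub_le _ _).trans ?_
    rw [norm_mul, norm_pow]
    have h7 : 0 ≤ ‖lam‖ ^ s := by positivity
    nlinarith
  obtain ⟨J, hJ⟩ := exists_nat_gt (2 * (‖kap‖ * (‖lam‖ ^ s * (2 / ‖w - 1‖) + 2)))
  have := hsum J
  linarith

end Q72.Germ
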