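import Mathlib
import Pool.Agent.Q72.Germ.Mono
import Pool.Agent.Q72.Germ.Seq

/-!
# A monomial germ whose orders of iterates satisfy no linear recursion
-/

set_option autoImplicit false

open Matrix Finset

namespace Q72.Germ

/-- the exponent matrix -/
def AA : Matrix (Fin 6) (Fin 6) ℕ :=
  !![2, 0, 0, 1, 6, 1;
     0, 2, 1, 0, 2, 3;
     1, 0, 2, 0, 8, 0;
     0, 1, 0, 2, 0, 4;
     0, 0, 0, 0, 12, 0;
     0, 0, 0, 0, 22, 1]

lemma sumAA {R : Type*} [CommSemiring R] (v : Fin 6 → R) :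
    (∑ j, (AA 0 j : R) * v j = 2 * v 0 + v 3 + 6 * v 4 + v 5) ∧
    (∑ j, (AA 1 j : R) * v j = 2 * v 1 + v 2 + 2 * v 4 + 3 * v 5) ∧
    (∑ j, (AA 2 j : R) * v j = v 0 + 2 * v 2 + 8 * v 4) ∧
    (∑ j, (AA 3 j : R) * v j = v 1 + 2 * v 3 + 4 * v 5) ∧
    (∑ j, (AA 4 j : R) * v j = 12 * v 4) ∧
    (∑ j, (AA 5 j : R) * v j = 22 * v 4 + v 5) := by
  simp only [Fin.sum_univ_six, AA]
  refine ⟨?_, ?_, ?_, ?_, ?_, ?_⟩ <;> simp

lemma rs_mul {n : ℕ} (A B : Matrix (Fin n) (Fin n) ℕ) (i : Fin n) :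
    (rs (A * B) i : ℤ) = ∑ j, (A i j : ℤ) * (rs B j : ℤ) := by
  unfold rs
  simp only [Matrix.mul_apply]
  push_cast
  simp only [Finset.mul_sum]
  exact Finset.sum_comm

lemma rs_pow (k : ℕ) :
    (rs (AA ^ k) 0 : ℤ) = pp k + (ab k).1 ∧ (rs (AA ^ k) 1 : ℤ) = pp k - (ab k).1 ∧
    (rs (AA ^ k) 2 : ℤ) = pp k + (ab k).2 ∧ (rs (AA ^ k) 3 : ℤ) = pp k - (ab k).2 ∧
    (rs (AA ^ k) 4 : ℤ) = 12 ^ k ∧ (rs (AA ^ k) 5 : ℤ) = 2 * 12 ^ k - 1 := by
  induction k with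
  | zero =>
    have h : ∀ i : Fin 6, rs (AA ^ 0) i = 1 := by
      intro i
      rw [pow_zero]
      unfold rs
      rw [Finset.sum_eq_single i]
      · simp
      · intro j _ hj
        exact Matrix.one_apply_ne hj.symm
      · simp
    simp only [h]
    simp [pp, ab]
  | succ k ih =>
    obtain ⟨h0, h1, h2, h3, h4, h5⟩ := ih
    rw [pow_succ']
    simp only [rs_mul]
    obtain ⟨s0, s1, s2, s3, s4, s5⟩ := sumAA (R := ℤ) (fun j => (rs (AA ^ k) j : ℤ))
    rw [s0, s1, s2, s3, s4, s5]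
    simp only [h0, h1, h2, h3, h4, h5, pp, ab, pow_succ]
    refine ⟨by ring, by ring, by ring, by ring, by ring, by ring⟩

lemma pp_le (k : ℕ) : pp k ≤ 12 ^ k := by
  induction k with
  | zero => simp [pp]
  | succ k ih =>
    rw [pp, pow_succ]
    have : (0 : ℤ) < 12 ^ k := by positivity
    linarith

lemma exists_min (k : ℕ) : ∃ i : Fin 6, (rs (AA ^ k) i : ℤ) = CC k := by
  obtain ⟨h0, h1, h2, h3, h4, h5⟩ := rs_pow k
  unfold CC
  rcases MM_cases k with h | h | h | h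
  · exact ⟨1, by rw [h1, h]⟩
  · exact ⟨0, by rw [h0, h]; ring⟩
  · exact ⟨3, by rw [h3, h]⟩
  · exact ⟨2, by rw [h2, h]; ring⟩

lemma CC_le (k : ℕ) (i : Fin 6) : CC k ≤ (rs (AA ^ k) i : ℤ) := by
  obtain ⟨h0, h1, h2, h3, h4, h5⟩ := rs_pow k
  have e1 : |(ab k).1| ≤ MM k := le_max_left _ _
  have e2 : |(ab k).2| ≤ MM k := le_max_right _ _
  have e3 := abs_le.1 e1
  have e4 := abs_le.1 e2
  have e5 := pp_le k
  have e6 : (0 : ℤ) < 12 ^ k := by positivity
  have e7 : 0 ≤ MM k := (abs_nonneg _).trans e1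
  unfold CC
  fin_cases i
  · show pp k - MM k ≤ (rs (AA ^ k) 0 : ℤ)
    rw [h0]; linarith [e3.1]
  · show pp k - MM k ≤ (rs (AA ^ k) 1 : ℤ)
    rw [h1]; linarith [e3.2]
  · show pp k - MM k ≤ (rs (AA ^ k) 2 : ℤ)
    rw [h2]; linarith [e4.1]
  · show pp k - MM k ≤ (rs (AA ^ k) 3 : ℤ)
    rw [h3]; linarith [e4.2]
  · show pp k - MM k ≤ (rs (AA ^ k) 4 : ℤ)
    rw [h4]; linarith
  · show pp k - MM k ≤ (rs (AA ^ k) 5 : ℤ)
    rw [h5]; linarith

/-- the orders of the iterates -/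
theorem order_iterate (k : ℕ) :
    ((sInf {m : ℕ | iteratedFDeriv ℂ m ((mono AA)^[k]) 0 ≠ 0} : ℕ) : ℤ) = CC k := by
  obtain ⟨i, hi⟩ := exists_min k
  rw [iterate_mono, order_mono (AA ^ k) (c := rs (AA ^ k) i) _ ⟨i, rfl⟩, hi]
  intro j
  have := CC_le k j
  rw [← hi] at this
  exact_mod_cast this

lemma rs_AA (i : Fin 6) : 2 ≤ rs AA i := by
  unfold rs AA
  fin_cases i <;> simp [Fin.sum_univ_six]

lemma mono_AA_zero : mono AA 0 = 0 := by
  funext i
  unfold mono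
  simp only [Pi.zero_apply, Finset.prod_pow_eq_pow_sum]
  have := rs_AA i
  unfold rs at this
  exact zero_pow (by omega)

lemma fderiv_zero : fderiv ℂ (mono AA) 0 = 0 := by
  ext v i
  have h1 := iteratedFDeriv_eq_zero AA (m := 1) (i := i) (by have := rs_AA i; omega)
  rw [iteratedFDeriv_comp] at h1
  have h2 := congrArg (fun L : ContinuousMultilinearMap ℂ (fun _ : Fin 1 => Fin 6 → ℂ) ℂ =>
    L (fun _ => v)) h1
  simpa [iteratedFDeriv_one_apply] using h2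

/-- the derivative on the diagonal -/
lemma fderiv_diag {n : ℕ} (B : Matrix (Fin n) (Fin n) ℕ) (s : ℂ) (v : Fin n → ℂ) (i : Fin n) :
    s * (fderiv ℂ (mono B) (fun _ => s) v i) = s ^ rs B i * ∑ j, (B i j : ℂ) * v j := by
  have h1 : ∀ j : Fin n, HasFDerivAt (fun z : Fin n → ℂ => z j ^ B i j)
      (((B i j : ℂ) * s ^ (B i j - 1)) • (ContinuousLinearMap.proj (R := ℂ)
        (φ := fun _ : Fin n => ℂ) j)) (fun _ => s) := by
    intro j
    have h2 : HasFDerivAt (fun z : Fin n → ℂ => z j)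
      (ContinuousLinearMap.proj (R := ℂ) (φ := fun _ : Fin n => ℂ) j) (fun _ => s) :=
      hasFDerivAt_apply j _
    have h3 := h2.pow (B i j)
    simpa using h3
  have h2 : HasFDerivAt (fun z : Fin n → ℂ => ∏ j, z j ^ B i j) _ (fun _ => s) :=
    HasFDerivAt.finset_prod (u := Finset.univ) fun j _ => h1 j
  have h3 : HasFDerivAt (fun z : Fin n → ℂ => mono B z i)
      ((ContinuousLinearMap.proj (R := ℂ) (φ := fun _ : Fin n => ℂ) i).comp
        (fderiv ℂ (mono B) (fun _ => s))) (fun _ => s) := by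
    have h4 : HasFDerivAt (mono B) (fderiv ℂ (mono B) (fun _ => s)) (fun _ => s) :=
      (analyticAt_mono B _).differentiableAt.hasFDerivAt
    exact hasFDerivAt_pi'.1 h4 i
  have h4 := h3.unique h2
  have h5 := congrArg (fun L : (Fin n → ℂ) →L[ℂ] ℂ => L v) h4
  simp only [ContinuousLinearMap.comp_apply, ContinuousLinearMap.proj_apply] at h5
  rw [h5]
  simp only [ContinuousLinearMap.sum_apply, ContinuousLinearMap.smul_apply, smul_eq_mul,
    ContinuousLinearMap.proj_apply, Finset.mul_sum]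
  apply Finset.sum_congr rfl
  intro j _
  rw [Finset.prod_pow_eq_pow_sum]
  rcases Nat.eq_zero_or_pos (B i j) with h0 | h0
  · rw [h0]; simp
  · have e1 : rs B i = ∑ l ∈ Finset.univ.erase j, B i l + (B i j - 1) + 1 := by
      unfold rs
      rw [← Finset.add_sum_erase _ _ (Finset.mem_univ j)]
      omega
    rw [e1, pow_succ, pow_add]
    ring

lemma det_ne_zero {s : ℂ} (hs : s ≠ 0) : (fderiv ℂ (mono AA) (fun _ => s)).det ≠ 0 := by
  intro h
  have h1 := LinearMap.bot_lt_ker_of_det_eq_zero h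
  obtain ⟨v, hv, hv0⟩ := (Submodule.ne_bot_iff _).1 h1.ne'
  apply hv0
  have h2 : ∀ i, fderiv ℂ (mono AA) (fun _ => s) v i = 0 := by
    intro i
    have : fderiv ℂ (mono AA) (fun _ => s) v = 0 := hv
    rw [this]; rfl
  have h3 : ∀ i, ∑ j, (AA i j : ℂ) * v j = 0 := by
    intro i
    have h4 := fderiv_diag AA s v i
    rw [h2, mul_zero] at h4
    exact (mul_eq_zero.1 h4.symm).resolve_left (pow_ne_zero _ hs)
  obtain ⟨s0, s1, s2, s3, s4, s5⟩ := sumAA (R := ℂ) v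
  rw [h3] at s0 s1 s2 s3 s4 s5
  have e4 : v 4 = 0 := by linear_combination (-(1 : ℂ) / 12) * s4
  have e5 : v 5 = 0 := by rw [e4] at s5; linear_combination -s5
  rw [e4, e5] at s0 s1
  rw [e4] at s2
  rw [e5] at s3
  have e0 : v 0 = 0 := by
    linear_combination (-(8 : ℂ) / 15) * s0 - (2 : ℂ) / 15 * s1 + (1 : ℂ) / 15 * s2 +
      (4 : ℂ) / 15 * s3
  have e3 : v 3 = 0 := by rw [e0] at s0; linear_combination -s0
  have e2 : v 2 = 0 := by rw [e0] at s2; linear_combination (-(1 : ℂ) / 2) * s2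
  have e1 : v 1 = 0 := by rw [e2] at s1; linear_combination (-(1 : ℂ) / 2) * s1
  funext i
  fin_cases i
  · exact e0
  · exact e1
  · exact e2
  · exact e3
  · exact e4
  · exact e5

end Q72.Germ
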